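import Pool.Agent.helper83.SC.Stmt

/-!
Module AP1 of the project SC: elementary properties of the functional `A`.
-/

open scoped Pointwise ContDiff
open MeasureTheory Set Filter Topology

namespace Pool.Agent.helper83.SC

/-- the value of `sel` if the minimizer is unique -/
theorem AP1_sel_cases {m : ℕ} {h : E m → ℝ} {p : E m}
    (hu : ∀ y y', IsArgmin h p y → IsArgmin h p y' → y = y') :
    (∀ φ : E m → ℝ, sel φ h p = 0) ∨ ∃ y, ∀ φ : E m → ℝ, sel φ h p = φ y := by
  by_cases he : ∃ y, IsArgmin h p y
  · obtain ⟨y, hy⟩ := he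
    right
    refine ⟨y, fun φ => ?_⟩
    have h1 : {z | IsArgmin h p z} = {y} := by
      ext z
      simp only [Set.mem_ofPred_eq, Set.mem_singleton_iff]
      exact ⟨fun hz => hu z y hz hy, fun hz => hz ▸ hy⟩
    unfold sel
    rw [h1, Set.image_singleton, csSup_singleton]
  · left
    intro φ
    have h1 : {z | IsArgmin h p z} = ∅ := by
      ext z
      simp only [Set.mem_ofPred_eq, Set.mem_empty_iff_false, iff_false]
      exact fun hz => he ⟨z, hz⟩
    unfold sel
    rw [h1, Set.image_empty, Real.sSup_empty]

theorem A_nonneg_of : A_nonneg_stmt := by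
  intro m φ hφ h
  unfold A
  refine integral_nonneg fun p => ?_
  unfold sel
  refine Real.sSup_nonneg ?_
  rintro _ ⟨y, _, rfl⟩
  exact hφ.2.2 y

theorem A_add_test_of (h1 : ae_argmin_unique_stmt) (h2 : sel_integrable_stmt) :
    A_add_test_stmt := by
  intro m φ ψ h hφ hψ hh
  unfold A
  rw [← integral_add (h2 hφ hh) (h2 hψ hh)]
  refine integral_congr_ae ?_
  filter_upwards [h1 hh] with p hp
  rcases AP1_sel_cases hp with h0 | ⟨y, hy⟩
  · rw [h0, h0, h0, add_zero]
  · rw [hy, hy, hy]

theorem A_smul_test_of : A_smul_test_stmt := by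
  intro m φ h _ c hc
  unfold A
  rw [← integral_const_mul]
  refine integral_congr_ae (Filter.Eventually.of_forall fun p => ?_)
  show sel (fun x => c * φ x) h p = c * sel φ h p
  unfold sel
  have h1 : (fun x => c * φ x) '' {y | IsArgmin h p y} = c • (φ '' {y | IsArgmin h p y}) := by
    ext r
    constructor
    · rintro ⟨y, hy, rfl⟩
      exact ⟨φ y, ⟨y, hy, rfl⟩, rfl⟩
    · rintro ⟨_, ⟨y, hy, rfl⟩, rfl⟩
      exact ⟨y, hy, rfl⟩
  rw [h1, Real.sSup_smul_of_nonneg hc, smul_eq_mul]

theorem A_affine_of : A_affine_stmt := by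
  intro m φ h a c
  have h1 : ∀ p, sel φ (fun x => h x + (inner ℝ a x + c)) p = sel φ h (p - a) := by
    intro p
    have h2 : {y | IsArgmin (fun x => h x + (inner ℝ a x + c)) p y} = {y | IsArgmin h (p - a) y} := by
      ext y
      simp only [Set.mem_ofPred_eq, IsArgmin]
      constructor
      · intro H z
        have := H z
        rw [inner_sub_left, inner_sub_left]
        linarith
      · intro H z
        have := H z
        rw [inner_sub_left, inner_sub_left] at this
        linarith
    unfold sel
    rw [h2]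
  unfold A
  simp only [h1]
  exact integral_sub_right_eq_self (fun p => sel φ h p) a

end Pool.Agent.helper83.SC
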