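import Pool.Agent.helper83.SC.Stmt

/-!
Module EN2 of the project SC: the Alexandrov measure of the envelope vanishes.
-/

open scoped Pointwise ContDiff
open MeasureTheory Set Filter Topology

namespace Pool.Agent.helper83.SC

/-- strict minimum: uniform gap outside a ball -/
theorem EN2_gap {m : ℕ} {G : E m → ℝ} (hG : CV G) {p y : E m} (hy : IsArgmin G p y)
    (hu : ∀ z, IsArgmin G p z → y = z) {δ : ℝ} (hδ : 0 < δ) :
    ∃ η : ℝ, 0 < η ∧ ∀ z, δ ≤ ‖z - y‖ → G y - inner ℝ p y + η ≤ G z - inner ℝ p z := by
  have hcont : Continuous G := by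
    rw [← continuousOn_univ]
    exact ConvexOn.continuousOn isOpen_univ hG
  have h1 : ∃ η : ℝ, 0 < η ∧ ∀ z ∈ Metric.sphere y δ,
      G y - inner ℝ p y + η ≤ G z - inner ℝ p z := by
    rcases (Metric.sphere y δ).eq_empty_or_nonempty with he | hne
    · exact ⟨1, one_pos, fun z hz => by rw [he] at hz; exact absurd hz (Set.notMem_empty z)⟩
    · have hco : ContinuousOn (fun z => G z - inner ℝ p z) (Metric.sphere y δ) :=
        (hcont.sub (continuous_const.inner continuous_id)).continuousOn
      obtain ⟨z0, hz0, hmin⟩ := (isCompact_sphere y δ).exists_isMinOn hne hco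
      have hgt : G y - inner ℝ p y < G z0 - inner ℝ p z0 := by
        by_contra hc
        push Not at hc
        have h2 : IsArgmin G p z0 := fun z => hc.trans (hy z)
        have h3 := hu z0 h2
        rw [mem_sphere_iff_norm, h3, sub_self, norm_zero] at hz0
        linarith
      refine ⟨(G z0 - inner ℝ p z0) - (G y - inner ℝ p y), by linarith, fun z hz => ?_⟩
      have := hmin hz
      simp only [Set.mem_ofPred_eq] at this
      linarith
  obtain ⟨η, hη, hs⟩ := h1
  refine ⟨η, hη, fun z hz => ?_⟩
  have hzy : 0 < ‖z - y‖ := lt_of_lt_of_le hδ hz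
  set t : ℝ := δ / ‖z - y‖ with ht
  have ht0 : 0 < t := div_pos hδ hzy
  have ht1 : t ≤ 1 := (div_le_one hzy).mpr hz
  have hmem : (1 - t) • y + t • z ∈ Metric.sphere y δ := by
    rw [mem_sphere_iff_norm]
    have : (1 - t) • y + t • z - y = t • (z - y) := by module
    rw [this, norm_smul, Real.norm_eq_abs, abs_of_pos ht0, ht, div_mul_cancel₀ _ hzy.ne']
  have h4 := hs _ hmem
  have h5 := hG.2 (Set.mem_univ y) (Set.mem_univ z) (sub_nonneg.mpr ht1) ht0.le (by ring)
  rw [inner_add_right, inner_smul_right, inner_smul_right] at h4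
  simp only [smul_eq_mul] at h5
  have h6 : η ≤ t * ((G z - inner ℝ p z) - (G y - inner ℝ p y)) := by nlinarith
  have h7 : 0 ≤ (G z - inner ℝ p z) - (G y - inner ℝ p y) := by linarith [hy z]
  nlinarith

theorem A_envelope_of (h0 : ae_argmin_unique_stmt) : A_envelope_stmt := by
  intro m φ g G r hr hG h1 h2 hφ hφr
  unfold A
  refine integral_eq_zero_of_ae ?_
  filter_upwards [h0 hG] with p hp
  show sel φ G p = 0
  unfold sel
  by_cases he : ∃ y, IsArgmin G p y
  · obtain ⟨y, hy⟩ := he
    have h3 : {z | IsArgmin G p z} = {y} := by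
      ext z
      simp only [Set.mem_ofPred_eq, Set.mem_singleton_iff]
      exact ⟨fun hz => hp z y hz hy, fun hz => hz ▸ hy⟩
    rw [h3, Set.image_singleton, csSup_singleton]
    by_cases hyr : r ≤ ‖y‖
    · by_contra hne
      have : y ∈ tsupport φ := subset_tsupport φ hne
      have := hφr this
      rw [mem_ball_zero_iff] at this
      linarith
    · exfalso
      push Not at hyr
      have hδ : 0 < (r - ‖y‖) / 2 := by linarith
      obtain ⟨η, hη, hgap⟩ := EN2_gap hG hy (fun z hz => hp y z hy hz) hδ
      set k : E m → ℝ := G ⊔ (fun x => inner ℝ p x + (G y - inner ℝ p y + η / 2)) with hk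
      have hkc : CV k := by
        refine ConvexOn.sup hG ?_
        refine ConvexOn.add_const ?_ _
        exact ⟨convex_univ, fun x _ z _ a b _ _ _ => by
          rw [inner_add_right, inner_smul_right, inner_smul_right]; simp⟩
      have hkg : ∀ x, r ≤ ‖x‖ → k x = g x := by
        intro x hx
        rw [← h1 x hx]
        have h4 : (r - ‖y‖) / 2 ≤ ‖x - y‖ := by
          have := norm_sub_norm_le x y
          linarith
        have h5 := hgap x h4
        show G x ⊔ (inner ℝ p x + (G y - inner ℝ p y + η / 2)) = G x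
        exact sup_eq_left.mpr (by linarith)
      have h6 := h2 k hkc hkg y
      have h7 : inner ℝ p y + (G y - inner ℝ p y + η / 2) ≤ k y := le_sup_right
      linarith
  · have h3 : {z | IsArgmin G p z} = ∅ := by
      ext z
      simp only [Set.mem_ofPred_eq, Set.mem_empty_iff_false, iff_false]
      exact fun hz => he ⟨z, hz⟩
    rw [h3, Set.image_empty, Real.sSup_empty]

end Pool.Agent.helper83.SC
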