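import Pool.Agent.helper83.SC.Stmt

/-!
Module JI of the project SC: integrability in the parameter.
-/

open scoped Pointwise ContDiff
open MeasureTheory Set Filter Topology

namespace Pool.Agent.helper83.SC

/-- the clamp to the unit interval -/
noncomputable def JI_clamp (s : ℝ) : ℝ := max 0 (min 1 s)

theorem JI_clamp_cont : Continuous JI_clamp := by unfold JI_clamp; fun_prop

theorem JI_clamp_nonneg (s : ℝ) : 0 ≤ JI_clamp s := le_max_left _ _

theorem JI_clamp_le_one (s : ℝ) : JI_clamp s ≤ 1 := max_le zero_le_one (min_le_left _ _)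

theorem JI_clamp_eq {s : ℝ} (h : s ∈ Icc (0 : ℝ) 1) : JI_clamp s = s := by
  unfold JI_clamp
  rw [min_eq_right h.2, max_eq_right h.1]

theorem JI_CV {m : ℕ} {φ f g : E m → ℝ} (hf : CV f) (hf' : CV (fun x => f x + φ x)) (hg : CV g)
    (s : ℝ) : CV (fun x => f x + JI_clamp s * φ x + g x) := by
  have h1 : (fun x => f x + JI_clamp s * φ x + g x)
      = (1 - JI_clamp s) • f + JI_clamp s • (fun x => f x + φ x) + g := by
    funext x
    simp only [Pi.add_apply, Pi.smul_apply, smul_eq_mul]
    ring
  rw [h1]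
  exact ((ConvexOn.smul (by linarith [JI_clamp_le_one s]) hf).add
    (ConvexOn.smul (JI_clamp_nonneg s) hf')).add hg

theorem A_interval_of (hA : tendsto_A_stmt) : A_interval_stmt := by
  intro m φ f g hφ hf hf' hg
  have hc : Continuous (fun s : ℝ => A φ (fun x => f x + JI_clamp s * φ x + g x)) := by
    refine SeqContinuous.continuous ?_
    intro u s hu
    refine hA hφ (JI_CV hf hf' hg s) (fun k => JI_CV hf hf' hg (u k)) fun x => ?_
    have h1 : Tendsto (fun k => JI_clamp (u k)) atTop (𝓝 (JI_clamp s)) :=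
      (JI_clamp_cont.tendsto s).comp hu
    exact ((h1.mul_const (φ x)).const_add (f x)).add_const (g x)
  have h2 : IntervalIntegrable (fun s : ℝ => A φ (fun x => f x + JI_clamp s * φ x + g x)) volume 0 1 :=
    hc.intervalIntegrable 0 1
  refine h2.congr ?_
  intro s hs
  have hs' : s ∈ Icc (0 : ℝ) 1 := by
    rw [uIoc_of_le zero_le_one] at hs
    exact ⟨hs.1.le, hs.2⟩
  show A φ (fun x => f x + JI_clamp s * φ x + g x) = A φ (fun x => f x + s * φ x + g x)
  rw [JI_clamp_eq hs']

end Pool.Agent.helper83.SC
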